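import Pool.Agent.W870.PD.Stmts

/-!
# PD-CONT: continuity in `p` of the probability of an event of finitely many bits
-/

set_option autoImplicit false
set_option linter.all false

open MeasureTheory Set Pool.Agent.H978R2 Pool.Agent.W804.HP

namespace Pool.Agent.W337.PD

open Pool.Agent.W870.PD

theorem cont : S_cont := by
  intro ι J A p p' hp hp' h
  classical
  induction J using Finset.induction_on generalizing A with
  | empty =>
    by_cases h1 : cfgOf ∅ ∈ A
    · have : A = univ := by
        ext ω; simp only [mem_univ, iff_true]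
        exact (h _ _ fun i hi => by simp at hi).1 h1
      rw [this]
      simp
    · have : A = ∅ := by
        ext ω; simp only [mem_empty_iff_false, iff_false]
        exact fun h' => h1 ((h _ _ fun i hi => by simp at hi).2 h')
      rw [this]
      simp
  | insert e J he ih =>
    have hd : ∀ b, DepOn (J : Set ι) {ω | upd e b ω ∈ A} := fun b =>
      (depOn_upd h e b).mono (by
        intro i hi
        have := hi.1
        simp only [Finset.coe_insert, mem_insert_iff] at this
        exact this.resolve_left hi.2)
    have i1 := ih _ (hd true)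
    have i0 := ih _ (hd false)
    rw [bm_real_split p hp h.measurable_fin e, bm_real_split p' hp' h.measurable_fin e,
      Finset.card_insert_of_notMem he]
    have b1 : (bm ι p hp).real {ω | upd e true ω ∈ A} ≤ 1 := measureReal_le_one
    have b0 : (bm ι p hp).real {ω | upd e false ω ∈ A} ≤ 1 := measureReal_le_one
    have c1 : 0 ≤ (bm ι p hp).real {ω | upd e true ω ∈ A} := measureReal_nonneg
    have c0 : 0 ≤ (bm ι p hp).real {ω | upd e false ω ∈ A} := measureReal_nonneg
    have q0 : (0 : ℝ) ≤ p' := p'.2
    have q1 : (p' : ℝ) ≤ 1 := by exact_mod_cast hp'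
    generalize (bm ι p hp).real {ω | upd e true ω ∈ A} = a1 at *
    generalize (bm ι p hp).real {ω | upd e false ω ∈ A} = a0 at *
    generalize (bm ι p' hp').real {ω | upd e true ω ∈ A} = a1' at *
    generalize (bm ι p' hp').real {ω | upd e false ω ∈ A} = a0' at *
    have hid : (p : ℝ) * a1 + (1 - p) * a0 - (p' * a1' + (1 - p') * a0') =
        (p - p') * (a1 - a0) + (p' * (a1 - a1') + (1 - p') * (a0 - a0')) := by ring
    rw [hid]
    have e1 : |((p : ℝ) - p') * (a1 - a0)| ≤ |(p : ℝ) - p'| := by
      rw [abs_mul]
      have : |a1 - a0| ≤ 1 := by rw [abs_le]; constructor <;> linarith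
      nlinarith [abs_nonneg ((p : ℝ) - p')]
    have e2 : |(p' : ℝ) * (a1 - a1') + (1 - p') * (a0 - a0')| ≤ J.card * |(p : ℝ) - p'| := by
      refine (abs_add_le _ _).trans ?_
      rw [abs_mul, abs_mul, abs_of_nonneg q0, abs_of_nonneg (by linarith : (0 : ℝ) ≤ 1 - p')]
      nlinarith
    refine (abs_add_le _ _).trans ?_
    push_cast
    linarith

end Pool.Agent.W337.PD
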