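import Pool.Agent.W870.PD.Stmts

/-!
# PD-ISO1: isoperimetric inequality in a box of the lattice
-/

set_option autoImplicit false
set_option linter.all false

open MeasureTheory Set Pool.Agent.H978R2 Pool.Agent.W804.HP

namespace Pool.Agent.W337.PD

open Pool.Agent.W870.PD

variable {d : ℕ}

/-- forget the coordinate `i` -/
noncomputable def fo (w : Fin d → ℤ) (i : Fin d) (z : Fin d → ℤ) : Fin d → ℤ :=
  Function.update z i (w i)

lemma fo_ne (w : Fin d → ℤ) {i j : Fin d} (h : j ≠ i) (z : Fin d → ℤ) : fo w i z j = z j := by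
  simp [fo, h]

lemma fo_eq_ne {w : Fin d → ℤ} {i j : Fin d} (h : j ≠ i) {z z' : Fin d → ℤ}
    (hz : fo w i z = fo w i z') : z j = z' j := by
  rw [← fo_ne w h z, hz, fo_ne w h]

open Classical in
/-- projection -/
noncomputable def pj (w : Fin d → ℤ) (i : Fin d) (A : Finset (Fin d → ℤ)) : Finset (Fin d → ℤ) :=
  A.image (fo w i)

theorem loomis (w : Fin d → ℤ) (A : Finset (Fin d → ℤ)) {i1 i2 i3 : Fin d} (h12 : i1 ≠ i2)
    (h13 : i1 ≠ i3) (h23 : i2 ≠ i3) :
    A.card ^ 2 ≤ (pj w i3 A).card * ((pj w i2 A).card * (pj w i1 A).card) := by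
  classical
  have hm : ∀ i, ∀ a ∈ A, fo w i a ∈ pj w i A := fun i a ha => Finset.mem_image_of_mem _ ha
  have h1 : A.card = ∑ y ∈ pj w i3 A, (A.filter (fun a => fo w i3 a = y)).card :=
    Finset.card_eq_sum_card_fiberwise (fun a ha => hm i3 a ha)
  set Q := (A ×ˢ A).filter (fun q => fo w i3 q.1 = fo w i3 q.2) with hQ
  have h2 : Q.card = ∑ y ∈ pj w i3 A, (A.filter (fun a => fo w i3 a = y)).card ^ 2 := by
    rw [Finset.card_eq_sum_card_fiberwise (f := fun q : (Fin d → ℤ) × (Fin d → ℤ) => fo w i3 q.1)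
      (t := pj w i3 A) (fun q hq => by
        have hq' : q ∈ Q := hq
        rw [hQ, Finset.mem_filter, Finset.mem_product] at hq'
        exact hm i3 _ hq'.1.1)]
    refine Finset.sum_congr rfl fun y _ => ?_
    rw [sq, ← Finset.card_product]
    congr 1
    ext q
    simp only [hQ, Finset.mem_filter, Finset.mem_product]
    constructor
    · rintro ⟨⟨⟨ha, hb⟩, h⟩, h'⟩
      exact ⟨⟨ha, h'⟩, hb, h ▸ h'⟩
    · rintro ⟨⟨ha, h⟩, hb, h'⟩
      exact ⟨⟨⟨ha, hb⟩, h.trans h'.symm⟩, h⟩
  have h3 : Q.card ≤ ((pj w i2 A) ×ˢ (pj w i1 A)).card := by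
    refine Finset.card_le_card_of_injOn (fun q => (fo w i2 q.1, fo w i1 q.2)) ?_ ?_
    · intro q hq
      have hq' : q ∈ Q := hq
      rw [hQ, Finset.mem_filter, Finset.mem_product] at hq'
      exact Finset.mem_coe.2 (Finset.mem_product.2 ⟨hm i2 _ hq'.1.1, hm i1 _ hq'.1.2⟩)
    · rintro ⟨a, a'⟩ hq ⟨b, b'⟩ hr h
      have hq' : (a, a') ∈ Q := hq
      have hr' : (b, b') ∈ Q := hr
      rw [hQ, Finset.mem_filter, Finset.mem_product] at hq' hr'
      have ea : fo w i3 a = fo w i3 a' := hq'.2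
      have eb : fo w i3 b = fo w i3 b' := hr'.2
      have e2 : fo w i2 a = fo w i2 b := (Prod.mk.inj h).1
      have e1 : fo w i1 a' = fo w i1 b' := (Prod.mk.inj h).2
      have k1 : a = b := by
        funext j
        by_cases hj : j = i2
        · subst hj
          rw [fo_eq_ne h23 ea, fo_eq_ne h12.symm e1, fo_eq_ne h23 eb]
        · exact fo_eq_ne hj e2
      have k2 : a' = b' := by
        funext j
        by_cases hj : j = i1
        · subst hj
          rw [← fo_eq_ne h13 ea, fo_eq_ne h12 e2, ← fo_eq_ne h13 eb]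
        · exact fo_eq_ne hj e1
      rw [k1, k2]
  rw [Finset.card_product] at h3
  calc A.card ^ 2 = (∑ y ∈ pj w i3 A, (A.filter (fun a => fo w i3 a = y)).card) ^ 2 := by rw [← h1]
    _ ≤ (pj w i3 A).card * ∑ y ∈ pj w i3 A, (A.filter (fun a => fo w i3 a = y)).card ^ 2 :=
        sq_sum_le_card_mul_sum_sq
    _ = (pj w i3 A).card * Q.card := by rw [h2]
    _ ≤ _ := Nat.mul_le_mul_left _ h3

/-- discrete intermediate values -/
lemma divt (S : ℤ → Prop) (lo hi : ℤ) {c0 c1 : ℤ} (h0 : lo ≤ c0) (h0' : c0 ≤ hi) (h1 : lo ≤ c1)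
    (h1' : c1 ≤ hi) (s0 : S c0) (s1 : ¬ S c1) :
    ∃ c, lo ≤ c ∧ c + 1 ≤ hi ∧ ((S c ∧ ¬ S (c + 1)) ∨ (¬ S c ∧ S (c + 1))) := by
  by_contra hcon
  push Not at hcon
  have key : ∀ c, lo ≤ c → c ≤ hi → (S c ↔ S lo) := by
    intro c hc
    induction c, hc using Int.le_induction with
    | base => intro _; exact Iff.rfl
    | succ n hn ih =>
      intro hn'
      have h := hcon n hn hn'
      rw [← ih (by omega)]
      constructor
      · intro h'
        by_contra h''
        exact (h.2 h'') h'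
      · intro h'
        exact h.1 h'
  exact s1 ((key c1 h1 h1').2 ((key c0 h0 h0').1 s0))

theorem proj_le (w : Fin d → ℤ) (t : ℕ) (A : Finset (Fin d → ℤ)) (hA : A ⊆ bx w t) (i : Fin d) :
    (2 * t + 1) * (pj w i A).card ≤ (2 * t + 1) * (bdy w t A).card + A.card := by
  classical
  set ln : (Fin d → ℤ) → ℤ → (Fin d → ℤ) := fun y c => Function.update y i c with hln
  set G := (pj w i A).filter (fun y => ∀ c ∈ Finset.Icc (w i - t) (w i + t), ln y c ∈ A) with hG
  have hyi : ∀ y ∈ pj w i A, y i = w i := by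
    intro y hy
    obtain ⟨a, _, rfl⟩ := Finset.mem_image.1 hy
    simp [fo]
  have hfo : ∀ y ∈ pj w i A, ∀ c, fo w i (ln y c) = y := by
    intro y hy c
    simp only [fo, hln, Function.update_idem]
    rw [← hyi y hy]
    simp
  have hln_i : ∀ y c, ln y c i = c := by intro y c; simp [hln]
  have hln_inj : ∀ y c c', ln y c = ln y c' → c = c' := by
    intro y c c' h
    rw [← hln_i y c, h, hln_i]
  -- full lines
  have hfull : (2 * t + 1) * G.card ≤ A.card := by
    have h1 : ∀ y ∈ G, 2 * t + 1 ≤ (A.filter (fun a => fo w i a = y)).card := by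
      intro y hy
      rw [hG, Finset.mem_filter] at hy
      have h2 : (Finset.Icc (w i - t) (w i + t)).card = 2 * t + 1 := by
        rw [Int.card_Icc]; omega
      rw [← h2]
      refine Finset.card_le_card_of_injOn (ln y) ?_ ?_
      · intro c hc
        exact Finset.mem_coe.2 (Finset.mem_filter.2 ⟨hy.2 c hc, hfo y hy.1 c⟩)
      · intro c _ c' _ h
        exact hln_inj y c c' h
    calc (2 * t + 1) * G.card = ∑ y ∈ G, (2 * t + 1) := by
          rw [Finset.sum_const, smul_eq_mul, mul_comm]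
      _ ≤ ∑ y ∈ G, (A.filter (fun a => fo w i a = y)).card := Finset.sum_le_sum h1
      _ ≤ ∑ y ∈ pj w i A, (A.filter (fun a => fo w i a = y)).card :=
          Finset.sum_le_sum_of_subset (Finset.filter_subset _ _)
      _ = A.card := (Finset.card_eq_sum_card_fiberwise
          (fun a ha => Finset.mem_image_of_mem _ ha)).symm
  -- the other lines
  have hex : ∀ y ∈ pj w i A \ G, ∃ c, (ln y c, i) ∈ bdy w t A := by
    intro y hy
    obtain ⟨hy1, hy2⟩ := Finset.mem_sdiff.1 hy
    have hy3 : ¬ ∀ c ∈ Finset.Icc (w i - t) (w i + t), ln y c ∈ A := by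
      intro h
      exact hy2 (Finset.mem_filter.2 ⟨hy1, h⟩)
    push Not at hy3
    obtain ⟨c1, hc1, hn⟩ := hy3
    rw [Finset.mem_Icc] at hc1
    obtain ⟨a, ha, hay⟩ := Finset.mem_image.1 hy1
    have hab := mem_bx.1 (hA ha)
    have hai := abs_le.1 (hab i)
    have ha' : ln y (a i) = a := by
      rw [← hay]
      simp [hln, fo]
    have hoff : ∀ c j, j ≠ i → ln y c j = a j := by
      intro c j hj
      rw [← hay]
      simp [hln, fo, hj]
    obtain ⟨c, hc, hc', hcc⟩ := divt (fun c => ln y c ∈ A) (w i - t) (w i + t) (c0 := a i) (c1 := c1)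
      (by linarith [hai.1]) (by linarith [hai.2]) hc1.1 hc1.2 (by show ln y (a i) ∈ A; rw [ha']; exact ha) hn
    have hadd : ln y c + ev i = ln y (c + 1) := by
      funext j
      by_cases hj : j = i
      · subst hj
        rw [Pi.add_apply, hln_i, hln_i, ev_self]
      · rw [Pi.add_apply, ev_ne hj, hoff c j hj, hoff (c + 1) j hj, add_zero]
    have hbx : ∀ c, w i - t ≤ c → c ≤ w i + t → ln y c ∈ bx w t := by
      intro c h1 h2
      rw [mem_bx]
      intro j
      by_cases hj : j = i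
      · subst hj
        rw [hln_i, abs_le]; constructor <;> linarith
      · rw [hoff c j hj]; exact hab j
    refine ⟨c, ?_⟩
    unfold bdy
    rw [Finset.mem_filter, Finset.mem_product]
    refine ⟨⟨hbx c hc (by linarith), Finset.mem_univ _⟩, ?_, ?_⟩
    · show ln y c + ev i ∈ bx w t
      rw [hadd]; exact hbx _ (by linarith) hc'
    · show (ln y c ∈ A ∧ ln y c + ev i ∉ A) ∨ (ln y c ∉ A ∧ ln y c + ev i ∈ A)
      rw [hadd]; exact hcc
  have hrest : (pj w i A \ G).card ≤ (bdy w t A).card := by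
    choose! g hg using hex
    refine Finset.card_le_card_of_injOn (fun y => (ln y (g y), i)) (fun y hy => hg y hy) ?_
    intro y hy y' hy' h
    have h1 : ln y (g y) = ln y' (g y') := (Prod.mk.inj h).1
    rw [← hfo y (Finset.mem_sdiff.1 hy).1 (g y), h1, hfo y' (Finset.mem_sdiff.1 hy').1]
  have hsum : (pj w i A \ G).card + G.card = (pj w i A).card :=
    Finset.card_sdiff_add_card_eq_card (Finset.filter_subset _ _)
  calc (2 * t + 1) * (pj w i A).card = (2 * t + 1) * (pj w i A \ G).card + (2 * t + 1) * G.card := by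
        rw [← hsum]; ring
    _ ≤ _ := Nat.add_le_add (Nat.mul_le_mul_left _ hrest) hfull

theorem iso1 (h2 : S_iso2) : S_iso1 := by
  intro d w t A hd hA hc
  have i12 : (⟨0, by omega⟩ : Fin d) ≠ ⟨1, by omega⟩ := by simp
  have i13 : (⟨0, by omega⟩ : Fin d) ≠ ⟨2, by omega⟩ := by simp
  have i23 : (⟨1, by omega⟩ : Fin d) ≠ ⟨2, by omega⟩ := by simp
  have hL := loomis w A i12 i13 i23
  have p1 := proj_le w t A hA (⟨0, by omega⟩ : Fin d)
  have p2 := proj_le w t A hA (⟨1, by omega⟩ : Fin d)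
  have p3 := proj_le w t A hA (⟨2, by omega⟩ : Fin d)
  have hiso := h2 d w t A hA
  generalize (pj w (⟨0, by omega⟩ : Fin d) A).card = P1 at *
  generalize (pj w (⟨1, by omega⟩ : Fin d) A).card = P2 at *
  generalize (pj w (⟨2, by omega⟩ : Fin d) A).card = P3 at *
  generalize (bdy w t A).card = b at *
  generalize A.card = a at *
  have hLpos : 0 < 2 * t + 1 := by omega
  generalize 2 * t + 1 = L at *
  have hL' : a ^ 2 ≤ P3 * (P2 * P1) := hL
  rcases Nat.eq_zero_or_pos a with ha | ha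
  · subst ha; simp
  rcases le_or_gt a (L * b) with hab | hab
  · have q : ∀ P, L * P ≤ L * b + a → P ≤ 2 * b := by
      intro P hP
      have : L * P ≤ L * (2 * b) := by nlinarith
      exact Nat.le_of_mul_le_mul_left this hLpos
    have q1 := q _ p1
    have q2 := q _ p2
    have q3 := q _ p3
    calc a ^ 2 ≤ P3 * (P2 * P1) := hL'
      _ ≤ (2 * b) * ((2 * b) * (2 * b)) := by gcongr
      _ = 8 * b ^ 3 := by ring
      _ ≤ 512 * b ^ 3 := by omega
  · have q : ∀ P, L * P ≤ L * b + a → L * P ≤ 2 * a := by intro P hP; omega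
    have q1 := q _ p1
    have q2 := q _ p2
    have q3 := q _ p3
    have r1 : L ^ 3 * a ^ 2 ≤ (8 * a) * a ^ 2 := by
      calc L ^ 3 * a ^ 2 ≤ L ^ 3 * (P3 * (P2 * P1)) := Nat.mul_le_mul_left _ hL'
        _ = (L * P3) * ((L * P2) * (L * P1)) := by ring
        _ ≤ (2 * a) * ((2 * a) * (2 * a)) := by gcongr
        _ = (8 * a) * a ^ 2 := by ring
    have r2 : L ^ 3 ≤ 8 * a := Nat.le_of_mul_le_mul_right r1 (by positivity)
    have r3 : a * L ^ d ≤ (4 * b * L) * L ^ d := by
      have : L ^ d ≤ 4 * (L ^ d - a) := by omega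
      calc a * L ^ d ≤ a * (4 * (L ^ d - a)) := Nat.mul_le_mul_left _ this
        _ = 4 * (a * (L ^ d - a)) := by ring
        _ ≤ 4 * (b * L ^ (d + 1)) := Nat.mul_le_mul_left _ hiso
        _ = (4 * b * L) * L ^ d := by ring
    have r4 : a ≤ 4 * b * L := Nat.le_of_mul_le_mul_right r3 (by positivity)
    have r5 : a * a ^ 2 ≤ a * (512 * b ^ 3) := by
      calc a * a ^ 2 = a ^ 3 := by ring
        _ ≤ (4 * b * L) ^ 3 := by gcongr
        _ = 64 * b ^ 3 * L ^ 3 := by ring
        _ ≤ 64 * b ^ 3 * (8 * a) := Nat.mul_le_mul_left _ r2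
        _ = a * (512 * b ^ 3) := by ring
    exact Nat.le_of_mul_le_mul_left r5 ha

end Pool.Agent.W337.PD
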